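import Mathlib
import Pool.Agent.Work.LRSHedge.GL

set_option autoImplicit false

namespace Pool.Agent.Results.MP_a1538a_al.AllFrobeniusPowers

/-- Let `F` be a finite field with `q` elements, `s` a divisor of `q` with `s < q` (every power
of the characteristic is `s * q ^ m` for exactly one such pair `s, m`). The `GL_n(F)`-invariants
of `F[x_1..x_n]/(x_i ^ (s * q ^ m))` have Hilbert series
`∑_{k < n, k ≤ m} t^{s (n-k) (q^m-q^k)} ∏_{i<k} (1-t^{s (q^m-q^i)})/(1-t^{s (q^k-q^i)})`
plus `∏_{i<n} (1-t^{s (q^m-q^i)})/(1-t^{q^n-q^i})`. -/
theorem result (F : Type) [Field F] [Fintype F] (n m s : ℕ) (hs : s ∣ Fintype.card F)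
    (hs' : s < Fintype.card F) :
      PowerSeries.mk (fun d : ℕ =>
        ((Module.finrank F
          (Submodule.map
            (Ideal.Quotient.mkₐ F
              (Ideal.span (Set.range fun i : Fin n =>
                (MvPolynomial.X i : MvPolynomial (Fin n) F) ^
                  (s * Fintype.card F ^ m)))).toLinearMap
            (MvPolynomial.homogeneousSubmodule (Fin n) F d ⊓
              ⨅ g : Matrix.GeneralLinearGroup (Fin n) F,
                LinearMap.ker
                  ((Ideal.Quotient.mkₐ F
                      (Ideal.span (Set.range fun i : Fin n =>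
                        (MvPolynomial.X i : MvPolynomial (Fin n) F) ^
                          (s * Fintype.card F ^ m)))).toLinearMap
                    ∘ₗ ((MvPolynomial.aeval (fun i : Fin n =>
                          ∑ j : Fin n, (g : Matrix (Fin n) (Fin n) F) i j •
                            (MvPolynomial.X j : MvPolynomial (Fin n) F))).toLinearMap
                        - LinearMap.id)))) : ℕ) : ℚ))
      = ∑ k ∈ Finset.range (min n (m + 1)),
          (PowerSeries.X : PowerSeries ℚ) ^
              (s * (n - k) * (Fintype.card F ^ m - Fintype.card F ^ k)) *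
            ∏ i ∈ Finset.range k,
              ((1 - (PowerSeries.X : PowerSeries ℚ) ^
                  (s * (Fintype.card F ^ m - Fintype.card F ^ i))) *
                (1 - (PowerSeries.X : PowerSeries ℚ) ^
                  (s * (Fintype.card F ^ k - Fintype.card F ^ i)))⁻¹)
        + ∏ i ∈ Finset.range n,
            ((1 - (PowerSeries.X : PowerSeries ℚ) ^
                (s * (Fintype.card F ^ m - Fintype.card F ^ i))) *
              (1 - (PowerSeries.X : PowerSeries ℚ) ^
                (Fintype.card F ^ n - Fintype.card F ^ i))⁻¹) :=
  Pool.Agent.Work.MP_a1538a_al.Hedge.hilbert_series_all (F := F) (n := n) hs hs' m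

end Pool.Agent.Results.MP_a1538a_al.AllFrobeniusPowers
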